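import Mathlib
import Pool.Agent.Helper58.Bil.Final
import Pool.Agent.Helper76.Caustic.Geom

set_option autoImplicit false

namespace Pool.Agent.Results.MP_190632_an.SmoothOvals

open Real Set

/-- The Euclidean plane. -/
abbrev Plane := EuclideanSpace ℝ (Fin 2)

/-- `K` is compact and strictly convex with interior points, and `γ` is a `C^∞` simple closed
curve of period `2π` with positive curvature whose trace is the boundary of `K`. -/
structure IsOval (K : Set Plane) (γ : ℝ → Plane) : Prop where
  compact : IsCompact K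
  strictConvex : StrictConvex ℝ K
  interiorPoint : (interior K).Nonempty
  smooth : ContDiff ℝ ((⊤ : ℕ∞) : WithTop ℕ∞) γ
  periodic : Function.Periodic γ (2 * π)
  simple : InjOn γ (Ico 0 (2 * π))
  boundary : range γ = frontier K
  curvature : ∀ t, 0 < deriv γ t 0 * deriv (deriv γ) t 1 - deriv γ t 1 * deriv (deriv γ) t 0

/-- The line through `p` with direction `v` meets `D`, and `D` lies on one side of it. -/
def IsTangentLine (D : Set Plane) (p v : Plane) : Prop :=
  v ≠ 0 ∧ (∃ s : ℝ, p + s • v ∈ D) ∧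
    ∃ n : Plane, n ≠ 0 ∧ inner ℝ n v = 0 ∧ ∀ y ∈ D, inner ℝ n (y - p) ≤ 0

/-- The mirror image of the vector `v` in the line with direction `w`. -/
noncomputable def mirror (w v : Plane) : Plane := (2 * inner ℝ v w / inner ℝ w w) • w - v

/-- Every tangent line of `D` is reflected at the curve `γ` to a tangent line of `D`. -/
def IsCaustic (γ : ℝ → Plane) (D : Set Plane) : Prop :=
  ∀ (t : ℝ) (v : Plane), IsTangentLine D (γ t) v → IsTangentLine D (γ t) (mirror (deriv γ t) v)

/-- The mirror image of the point `x` in the first coordinate axis. -/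
noncomputable def flip (x : Plane) : Plane := !₂[x 0, -(x 1)]

open Pool.Agent.Helper76.Caustic

lemma contDiff_pt {H : ℝ → ℝ} (hH : ContDiff ℝ ((⊤ : ℕ∞) : WithTop ℕ∞) H) :
    ContDiff ℝ ((⊤ : ℕ∞) : WithTop ℕ∞) (pt H (deriv H)) := by
  have hH1 : ContDiff ℝ ((⊤ : ℕ∞) : WithTop ℕ∞) (deriv H) := (contDiff_infty_iff_deriv.1 hH).2
  rw [contDiff_euclidean]
  intro i
  fin_cases i
  · simp only [Fin.zero_eta, pt_zero]
    exact (hH.mul contDiff_cos).sub (hH1.mul contDiff_sin)
  · simp only [Fin.mk_one, pt_one]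
    exact (hH.mul contDiff_sin).add (hH1.mul contDiff_cos)

lemma hasDerivAt_pt {H H1 H2 : ℝ → ℝ} (S : Supp H H1 H2) (t : ℝ) :
    HasDerivAt (pt H H1) ((H t + H2 t) • et t) t := by
  have a1 := S.d1 t
  have a2 := S.d2 t
  have a3 := hasDerivAt_cos t
  have a4 := hasDerivAt_sin t
  apply hasDerivAt_E2
  · have := (a1.mul a3).sub (a2.mul a4)
    have e : (fun t : ℝ => pt H H1 t 0) = fun t => H t * cos t - H1 t * sin t := by
      funext t; rw [pt_zero]
    have e2 : ((H t + H2 t) • et t) 0 =
        H1 t * cos t + H t * (-sin t) - (H2 t * sin t + H1 t * cos t) := by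
      simp [et]
      ring
    rw [e, e2]
    exact this
  · have := (a1.mul a4).add (a2.mul a3)
    have e : (fun t : ℝ => pt H H1 t 1) = fun t => H t * sin t + H1 t * cos t := by
      funext t; rw [pt_one]
    have e2 : ((H t + H2 t) • et t) 1 =
        H1 t * sin t + H t * cos t + (H2 t * cos t + H1 t * (-sin t)) := by
      simp [et]
      ring
    rw [e, e2]
    exact this

lemma deriv_pt {H H1 H2 : ℝ → ℝ} (S : Supp H H1 H2) :
    deriv (pt H H1) = fun t => (H t + H2 t) • et t :=
  funext fun t => (hasDerivAt_pt S t).deriv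

lemma hasDerivAt_et (t : ℝ) : HasDerivAt et (!₂[-cos t, -sin t] : E2) t := by
  apply hasDerivAt_E2
  · have : HasDerivAt (fun t => -sin t) (-cos t) t := (hasDerivAt_sin t).neg
    simpa [et] using this
  · have := hasDerivAt_cos t
    simpa [et] using this

/-- The convex body with support function `H` is an oval. -/
lemma isOval {H : ℝ → ℝ} (hH : ContDiff ℝ ((⊤ : ℕ∞) : WithTop ℕ∞) H)
    (S : Supp H (deriv H) (deriv (deriv H))) (hpos : ∀ θ, 0 < H θ) :
    IsOval (body H) (pt H (deriv H)) where
  compact := S.isCompact_body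
  strictConvex := S.strictConvex_body
  interiorPoint := ⟨0, S.mem_interior fun θ => by simpa [ip] using hpos θ⟩
  smooth := contDiff_pt hH
  periodic := by
    intro t
    apply ext_E2
    · simp [S.per, S.per1]
    · simp [S.per, S.per1]
  simple := by
    intro t ht t' ht' heq
    by_contra hcon
    have hne' : ¬ (cos t' = cos t ∧ sin t' = sin t) := by
      rintro ⟨e1, e2⟩
      have h2 : ((t' : ℝ) : Real.Angle) = ((t : ℝ) : Real.Angle) :=
        Real.Angle.cos_sin_inj e1 e2
      rw [Real.Angle.angle_eq_iff_two_pi_dvd_sub] at h2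
      obtain ⟨k, hk⟩ := h2
      have hpi := pi_pos
      have h4 : (k : ℝ) < 1 := by
        have : 2 * π * k < 2 * π * 1 := by rw [← hk]; linarith [ht'.2, ht.1]
        exact lt_of_mul_lt_mul_left this (by positivity)
      have h5 : (-1 : ℝ) < k := by
        have : 2 * π * (-1) < 2 * π * k := by rw [← hk]; linarith [ht'.1, ht.2]
        exact lt_of_mul_lt_mul_left this (by positivity)
      have h6 : k = 0 := by
        have h7 : k < 1 := by exact_mod_cast h4
        have h8 : -1 < k := by exact_mod_cast h5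
        omega
      rw [h6] at hk
      apply hcon
      simp at hk
      linarith
    have := S.strict hne'
    rw [heq, ip_pt_self] at this
    exact lt_irrefl _ this
  boundary := S.frontier_body.symm
  curvature := by
    intro t
    have h1 : deriv (pt H (deriv H)) = fun t => (H t + deriv (deriv H) t) • et t := deriv_pt S
    have hH2 : ContDiff ℝ ((⊤ : ℕ∞) : WithTop ℕ∞) (deriv (deriv H)) :=
      (contDiff_infty_iff_deriv.1 (contDiff_infty_iff_deriv.1 hH).2).2
    have hr : HasDerivAt (fun t => H t + deriv (deriv H) t)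
        (deriv H t + deriv (deriv (deriv H)) t) t :=
      (S.d1 t).add ((hH2.differentiable (by simp)) t).hasDerivAt
    have h2 : HasDerivAt (fun t => (H t + deriv (deriv H) t) • et t)
        ((H t + deriv (deriv H) t) • (!₂[-cos t, -sin t] : E2)
          + (deriv H t + deriv (deriv (deriv H)) t) • et t) t := hr.smul (hasDerivAt_et t)
    rw [h1, h2.deriv]
    have hp := S.pos t
    have hcs := sin_sq_add_cos_sq t
    simp [et]
    nlinarith [mul_pos hp hp]

theorem result : ∃ (K D : Set Plane) (γ c : ℝ → Plane),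
    IsOval K γ ∧ IsOval D c ∧ D ⊆ interior K ∧ IsCaustic γ D ∧
      flip '' K = K ∧ flip '' D ≠ D := by
  obtain ⟨H, h, d, G⟩ := Pool.Agent.Helper58.Bil.exists_geomHyp
  have htop : ((⊤ : ℕ∞) : WithTop ℕ∞) ≠ 0 := by simp
  have D1 : ∀ f : ℝ → ℝ, ContDiff ℝ ((⊤ : ℕ∞) : WithTop ℕ∞) f →
      ∀ x, HasDerivAt f (deriv f x) x := fun f hf x =>
    (hf.differentiable htop x).hasDerivAt
  have D2 : ∀ f : ℝ → ℝ, ContDiff ℝ ((⊤ : ℕ∞) : WithTop ℕ∞) f →
      ContDiff ℝ ((⊤ : ℕ∞) : WithTop ℕ∞) (deriv f) := fun f hf =>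
    (contDiff_infty_iff_deriv.1 hf).2
  have S : Supp H (deriv H) (deriv (deriv H)) := ⟨D1 _ G.sH, D1 _ (D2 _ G.sH), G.pH, G.cH⟩
  have s : Supp h (deriv h) (deriv (deriv h)) := ⟨D1 _ G.sh, D1 _ (D2 _ G.sh), G.ph, G.ch⟩
  refine ⟨body H, body h, pt H (deriv H), pt h (deriv h),
    isOval G.sH S fun θ => (G.hpos θ).trans (G.hH θ), isOval G.sh s G.hpos, ?_, ?_, ?_, ?_⟩
  · intro x hx
    exact S.mem_interior fun θ => lt_of_le_of_lt (hx θ) (G.hH θ)
  · -- caustic
    rintro θ v ⟨hv, ⟨r, hr⟩, n, hn, hn0, hnD⟩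
    obtain ⟨ρ, ψ, hρ, rfl⟩ := exists_polar n hn
    set g := pt H (deriv H) θ with hg
    have hdt : deriv (pt H (deriv H)) θ = (H θ + deriv (deriv H) θ) • et θ := by
      rw [deriv_pt S]
    rw [hdt]
    have hc : H θ + deriv (deriv H) θ ≠ 0 := (S.pos θ).ne'
    set c := H θ + deriv (deriv H) θ with hcdef
    have hv0 : ip v ψ = 0 := by
      rw [inner_ip] at hn0
      rcases mul_eq_zero.1 hn0 with h0 | h0
      · exact absurd h0 hρ.ne'
      · exact h0
    have hD : ∀ y ∈ body h, ip y ψ ≤ ip g ψ := by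
      intro y hy
      have := hnD y hy
      rw [inner_ip] at this
      have h2 : ip (y - g) ψ ≤ 0 := by
        by_contra hcon
        push Not at hcon
        have := mul_pos hρ hcon
        linarith
      rw [ip_sub] at h2
      linarith
    have hψ : ip g ψ = h ψ := by
      have e2 : ip (g + r • v) ψ ≤ h ψ := hr ψ
      rw [ip_add, ip_smul, hv0, mul_zero, add_zero] at e2
      have e3 := hD _ (s.pt_mem ψ)
      rw [ip_pt_self] at e3
      linarith
    have hgp : ip g (θ + d θ) = h (θ + d θ) := by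
      rw [hg, ip_pt, G.law2]
      simp
    have hgm : ip g (θ - d θ) = h (θ - d θ) := by
      rw [hg, ip_pt, G.law1]
      have : θ - d θ - θ = -(d θ) := by ring
      rw [this, cos_neg, sin_neg]
      ring
    have step : ∀ δ : ℝ, ip g (θ + δ) = h (θ + δ) → ip g (θ - δ) = h (θ - δ) →
        (cos ψ = cos (θ + δ) ∧ sin ψ = sin (θ + δ)) →
        IsTangentLine (body h) g (mirror (c • et θ) v) := by
      intro δ hδp hδm hψδ
      have hv1 : ip v (θ + δ) = 0 := by
        rw [← hv0]; simp only [ip, hψδ.1, hψδ.2]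
      obtain ⟨l, hl⟩ : ∃ l : ℝ, v = l • et (θ + δ) := ⟨_, eq_smul_et hv1⟩
      have hl0 : l ≠ 0 := by
        rintro rfl
        rw [zero_smul] at hl
        exact hv hl
      have hm : mirror (c • et θ) v = l • et (θ - δ) := by
        rw [mirror, hl, refl_et θ δ c l hc]
      rw [hm]
      refine ⟨smul_ne_zero hl0 (et_ne _), ?_, ?_⟩
      · have k1 : ip (pt h (deriv h) (θ - δ) - g) (θ - δ) = 0 := by
          rw [ip_sub, ip_pt_self, hδm, sub_self]
        obtain ⟨μ, hμ⟩ : ∃ μ : ℝ, pt h (deriv h) (θ - δ) - g = μ • et (θ - δ) :=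
          ⟨_, eq_smul_et k1⟩
        refine ⟨μ / l, ?_⟩
        have h2 : g + (μ / l) • l • et (θ - δ) = pt h (deriv h) (θ - δ) := by
          rw [smul_smul, div_mul_cancel₀ _ hl0, ← hμ]
          abel
        rw [h2]
        exact s.pt_mem _
      · refine ⟨!₂[1 * cos (θ - δ), 1 * sin (θ - δ)], ?_, ?_, ?_⟩
        · intro h0
          have h1 := congrArg (fun x : E2 => x 0) h0
          have h2 := congrArg (fun x : E2 => x 1) h0
          simp at h1 h2
          have := sin_sq_add_cos_sq (θ - δ)
          rw [h1, h2] at this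
          norm_num at this
        · rw [inner_ip, ip_smul, ip_et_self]
          ring
        · intro y hy
          rw [inner_ip, ip_sub, hδm, one_mul]
          linarith [hy (θ - δ)]
    rcases s.two_lines G.hpos (G.d0 θ) (G.d1 θ) hgp hgm hψ with hcase | hcase
    · exact step (d θ) hgp hgm hcase
    · have e1 : θ - d θ = θ + -(d θ) := by ring
      have e2 : θ - -(d θ) = θ + d θ := by ring
      exact step (-(d θ)) (by rw [← e1]; exact hgm) (by rw [e2]; exact hgp)
        (by rw [← e1]; exact hcase)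
  · -- symmetric table
    have hip : ∀ (x : Plane) (θ : ℝ), ip (flip x) θ = ip x (-θ) := fun x θ => ip_refl0 x θ
    have hff : ∀ x : Plane, flip (flip x) = x := fun x => refl0_refl0 x
    have hm : ∀ x ∈ body H, flip x ∈ body H := by
      intro x hx θ
      rw [hip, ← G.eH θ]
      exact hx (-θ)
    ext x
    constructor
    · rintro ⟨y, hy, rfl⟩
      exact hm y hy
    · intro hx
      exact ⟨flip x, hm x hx, hff x⟩
  · -- the caustic is not symmetric
    intro heq
    have hip : ∀ (x : Plane) (θ : ℝ), ip (flip x) θ = ip x (-θ) := fun x θ => ip_refl0 x θ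
    obtain ⟨θ0, hθ0⟩ := G.ne
    have key : ∀ θ, h θ ≤ h (-θ) := by
      intro θ
      have h1 : pt h (deriv h) θ ∈ body h := s.pt_mem θ
      rw [← heq] at h1
      obtain ⟨x, hx, hx2⟩ := h1
      have h4 : h θ = ip x (-θ) := by
        rw [← hip, hx2, ip_pt_self]
      rw [h4]
      exact hx (-θ)
    apply hθ0
    apply le_antisymm
    · have := key (-θ0); rwa [neg_neg] at this
    · exact key θ0

end Pool.Agent.Results.MP_190632_an.SmoothOvals
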